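import Mathlib
import Pool.Agent.H91.Liou.Forcing

set_option autoImplicit false

open MeasureTheory Set
open scoped ENNReal NNReal Pointwise
open Pool.Agent.H91.Liou

namespace Pool.Agent.Results.MP_feb643_gt.CenteredNoCapture

/-- A poset that is a union of countably many centred pieces cannot capture a set of reals whose
products with dimension zero sets are big: if `A` names a sequence of finite sets of rate `s`, the
set `Z` of the reals that some condition forces to be captured by `A` satisfies
`dimH (Z × Y) ≤ s` and `dimH (Z + Y) ≤ s` for every `Y` with `dimH Y = 0`. -/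
theorem result (P : Type) [Preorder P] (hP : SigmaCentered P) (s : ℝ≥0) (A : CapName P s)
    (Y : Set ℝ) (hY : dimH Y = 0) :
    dimH ({x : ℝ | ∃ p, A.ForcesCaptured p x} ×ˢ Y) ≤ s ∧
      dimH ({x : ℝ | ∃ p, A.ForcesCaptured p x} + Y) ≤ s := by
  obtain ⟨X, hX1, hX2⟩ := A.countable_cover hP
  have key : dimH ({x : ℝ | ∃ p, A.ForcesCaptured p x} ×ˢ Y) ≤ s := by
    have h6 : {x : ℝ | ∃ p, A.ForcesCaptured p x} ×ˢ Y ⊆ ⋃ i, (X i ×ˢ Y) := by
      rw [← Set.iUnion_prod_const]
      exact Set.prod_mono_left hX2
    refine (dimH_mono h6).trans ?_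
    rw [dimH_iUnion]
    exact iSup_le fun i => dimH_prod_le_of_captured (hX1 i) hY
  exact ⟨key, (dimH_add_le _ Y).trans key⟩

end Pool.Agent.Results.MP_feb643_gt.CenteredNoCapture
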