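import Pool.Agent.H71.HM.Main
import Pool.Agent.H71.HF.Faith

/-!
# The negated form of Q1 is consistent with ZFC

There is a model `(M, E)` of ZFC which contains a set `X` of reals with `|X| < 𝔭` and a set `Y` of
reals of Hausdorff dimension zero such that `X × Y` does not have Hausdorff dimension zero
(`IsCounter E w X Y`). The second part of the theorem says that the first-order sentence used here,
read in the real world (the structure `(ZFSet, ∈)`), is equivalent to the negation of the frozen
statement of Q1 (`HF.Main` is its text).

The model is a finite support iteration, of length `(2 ^ 𝔠)⁺`, of forcings adding pseudointersections,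
as a Boolean-valued model (helper26's library) divided by an ultrafilter; `X` is the set of the reals
of the ground model, `Y` is a set of Liouville type.
-/

set_option autoImplicit false

namespace Pool.Agent.Results.MP_feb643_gt.ConsistentNegation

theorem result :
    (∃ (M : Type 1) (E : M → M → Prop), BV.IsZFC E ∧ ∃ w X Y, HM.IsCounter E w X Y) ∧
    ((∃ w X Y : ZFSet.{0}, HM.IsCounter (fun x y => x ∈ y) w X Y) ↔
      ¬ ∀ X : Set ℝ,
        (∀ F : Set (Set ℕ), Cardinal.mk F ≤ Cardinal.mk X →
          (∀ A ∈ F, A.Infinite) →
          (∀ G : Finset (Set ℕ), (↑G : Set (Set ℕ)) ⊆ F → (⋂ A ∈ G, A).Infinite) →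
          ∃ B : Set ℕ, B.Infinite ∧ ∀ A ∈ F, (B \ A).Finite) →
        ∀ Y : Set ℝ, dimH Y = 0 → dimH (X ×ˢ Y) = 0) :=
  ⟨HM.exists_counter, HF.counter_iff⟩

end Pool.Agent.Results.MP_feb643_gt.ConsistentNegation
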