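import Mathlib
import Pool.Agent.H91.Liou.Lower
import Pool.Agent.H91.Liou.Step

set_option autoImplicit false

open MeasureTheory Set
open scoped ENNReal NNReal Pointwise
open Pool.Agent.H91.Liou

namespace Pool.Agent.Results.MP_feb643_gt.LiouvilleUniversal

/-- The set of Liouville numbers. -/
def L : Set ℝ := {y | Liouville y}

/-- The hypothesis of the frozen statement S14301: `X` has size below the pseudo-intersection
number. -/
def BelowP (X : Set ℝ) : Prop :=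
  ∀ F : Set (Set ℕ), Cardinal.mk F ≤ Cardinal.mk X →
    (∀ A ∈ F, A.Infinite) →
    (∀ G : Finset (Set ℕ), (↑G : Set (Set ℕ)) ⊆ F → (⋂ A ∈ G, A).Infinite) →
    ∃ B : Set ℕ, B.Infinite ∧ ∀ A ∈ F, (B \ A).Finite

lemma captured_mono {s t : ℝ} (h : s ≤ t) {X : Set ℝ} (hX : Captured s X) : Captured t X := by
  obtain ⟨A, hA, hc⟩ := hX
  refine ⟨A, fun m => (hA m).trans ?_, hc⟩
  apply Real.rpow_le_rpow_of_exponent_le (by norm_num)
  have : (0:ℝ) ≤ m := Nat.cast_nonneg m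
  nlinarith

lemma captured_subset {s : ℝ} {X Y : Set ℝ} (h : X ⊆ Y) (hY : Captured s Y) : Captured s X := by
  obtain ⟨A, hA, hc⟩ := hY
  exact ⟨A, hA, fun x hx => hc x (h hx)⟩

/-- the capture rate is at most the dimension of the sum with the Liouville numbers -/
lemma rate_le (X : Set ℝ) :
    (⨅ (s : ℝ≥0) (_ : Captured s X), (s : ℝ≥0∞)) ≤ dimH (X + L) := by
  apply le_of_forall_gt
  intro t ht
  rcases le_or_gt 1 (dimH (X + L)) with h1 | h1
  · obtain ⟨s, hs1, hs2⟩ := ENNReal.lt_iff_exists_nnreal_btwn.1 (lt_of_le_of_lt h1 ht)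
    have h2 : Captured s X := captured_subset (subset_univ _) (captured_univ (by exact_mod_cast hs1))
    exact lt_of_le_of_lt (iInf₂_le s h2) hs2
  · obtain ⟨d, hd1, hd2⟩ := ENNReal.lt_iff_exists_nnreal_btwn.1 (lt_min ht h1)
    have hd2' := (lt_min_iff.1 hd2)
    obtain ⟨e, he1, he2⟩ := ENNReal.lt_iff_exists_nnreal_btwn.1 hd2'.1
    have hde : d < e := by exact_mod_cast he1
    have hd0 : (0:ℝ) < d := by
      have : (0:ℝ≥0∞) < d := lt_of_le_of_lt bot_le hd1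
      exact_mod_cast this
    have hdone : (d:ℝ) < 1 := by exact_mod_cast hd2'.2
    have hnull : μH[(d:ℝ)] (X + {y : ℝ | Liouville y}) = 0 := hausdorffMeasure_of_dimH_lt hd1
    have hcap := captured_of_null hd0 hdone (show (0:ℝ) < (e:ℝ) - d from sub_pos.2 (by exact_mod_cast hde))
      hnull
    have hcap' : Captured e X := by
      have e1 : (d:ℝ) + ((e:ℝ) - d) = e := by ring
      rwa [e1] at hcap
    exact lt_of_le_of_lt (iInf₂_le e hcap') he2

/-- products with sets of dimension zero are bounded by the capture rate -/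
lemma prod_le_rate (X : Set ℝ) {Y : Set ℝ} (hY : dimH Y = 0) :
    dimH (X ×ˢ Y) ≤ ⨅ (s : ℝ≥0) (_ : Captured s X), (s : ℝ≥0∞) :=
  le_iInf₂ fun _ hs => dimH_prod_le_of_captured hs hY

theorem result :
    (dimH L = 0 ∧ ∀ X Y : Set ℝ, dimH Y = 0 → dimH (X ×ˢ Y) ≤ dimH (X ×ˢ L)) ∧
    (∀ X : Set ℝ, dimH (X ×ˢ L) = dimH (X + L) ∧
      dimH (X + L) = ⨅ (s : ℝ≥0) (_ : Captured s X), (s : ℝ≥0∞)) ∧
    ((∀ X : Set ℝ, BelowP X → ∀ Y : Set ℝ, dimH Y = 0 → dimH (X ×ˢ Y) = 0) ↔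
      ∀ X : Set ℝ, BelowP X → ∀ s : ℝ, 0 < s → Captured s X) := by
  have hL : dimH L = 0 := dimH_liouville
  have h1 : ∀ X : Set ℝ, dimH (X + L) ≤ dimH (X ×ˢ L) := fun X => dimH_add_le X L
  have h2 : ∀ X : Set ℝ, dimH (X ×ˢ L) ≤ ⨅ (s : ℝ≥0) (_ : Captured s X), (s : ℝ≥0∞) :=
    fun X => prod_le_rate X hL
  have h3 := rate_le
  have h4 : ∀ X : Set ℝ, dimH (X ×ˢ L) = dimH (X + L) :=
    fun X => le_antisymm ((h2 X).trans (h3 X)) (h1 X)
  have h5 : ∀ X : Set ℝ, dimH (X + L) = ⨅ (s : ℝ≥0) (_ : Captured s X), (s : ℝ≥0∞) :=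
    fun X => le_antisymm ((h1 X).trans (h2 X)) (h3 X)
  refine ⟨⟨hL, fun X Y hY => ?_⟩, fun X => ⟨h4 X, h5 X⟩, ?_, ?_⟩
  · rw [h4, h5]; exact prod_le_rate X hY
  · intro h X hX s hs
    have h6 := h X hX L hL
    rw [h4, h5] at h6
    have h7 : (⨅ (s : ℝ≥0) (_ : Captured s X), (s : ℝ≥0∞)) < (s.toNNReal : ℝ≥0∞) := by
      rw [h6]; simpa using hs
    simp only [iInf_lt_iff] at h7
    obtain ⟨t, ht1, ht2⟩ := h7
    have h8 : t < s.toNNReal := by exact_mod_cast ht2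
    apply captured_mono _ ht1
    rw [← Real.coe_toNNReal s hs.le]
    exact_mod_cast h8.le
  · intro h X hX Y hY
    refine le_antisymm ((prod_le_rate X hY).trans ?_) bot_le
    apply le_of_forall_gt
    intro t ht
    obtain ⟨s, hs1, hs2⟩ := ENNReal.lt_iff_exists_nnreal_btwn.1 ht
    have hs0 : (0:ℝ) < s := by exact_mod_cast hs1
    exact lt_of_le_of_lt (iInf₂_le s (h X hX s hs0)) hs2

end Pool.Agent.Results.MP_feb643_gt.LiouvilleUniversal
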